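import Pool.Agent.BEP.Stmts

/-!
Row BLT of squad BEP (MP_be01ff_an): the ball of `ℝ³`.
-/

namespace Pool.Agent.BEP.H69

open Set Filter Topology MeasureTheory
open scoped InnerProductSpace ENNReal
open Pool.Agent Pool.Agent.BE01 Pool.Agent.BEG Pool.Agent.BEH Pool.Agent.BEP
open Pool.Agent.BEO (BB)

theorem blt (hbao : Pool.Agent.BEO.BaoStmt) : BltStmt := by
  intro p
  obtain ⟨l, φ, hφ, he, hn⟩ := hbao 0 1 one_pos
  have hno : ∀ n : ℕ, 2 ≤ n → (n : ℝ) ^ 2 * l ∉ Sp (BB 3 1) ∅ := by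
    rintro n h2 ⟨u, -, hu, hue⟩
    exact hu (hn n h2 u hue)
  refine ⟨l, ⟨φ, ?_, hφ, he⟩, ?_, ?_⟩
  · intro g hg
    exact absurd hg.1 (Set.notMem_empty _)
  · intro n _ h3 _
    exact hno n (by omega)
  · intro J
    exact ⟨J + 1, by omega, fun n _ hM _ => hno n (by omega)⟩

end Pool.Agent.BEP.H69
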